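import Pool.Agent.H94.TC.Frac

/-!
The global argument for a general exponent `n` prime to the degree of `f`.
-/

namespace Pool.Agent.H94.TL

open Polynomial WithZero IsDedekindDomain HeightOneSpectrum

section

variable {B : Type*} [CommRing B] [IsDedekindDomain B]

theorem exists_pow_ideal (n : ℕ) (J : Ideal B) (hJ : J ≠ ⊥)
    (h : ∀ w : HeightOneSpectrum B, n ∣ multiplicity w.asIdeal J) :
    ∃ I : Ideal B, I ^ n = J ∧ I ≠ ⊥ := by
  classical
  have hfin : (Function.mulSupport fun w : HeightOneSpectrum B =>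
      w.asIdeal ^ (multiplicity w.asIdeal J / n)).Finite := by
    refine (Ideal.finite_factors hJ).subset ?_
    intro w hw
    rw [Function.mem_mulSupport] at hw
    show w.asIdeal ∣ J
    by_contra hd
    apply hw
    rw [multiplicity_eq_zero.2 hd]
    simp
  refine ⟨∏ᶠ w : HeightOneSpectrum B, w.asIdeal ^ (multiplicity w.asIdeal J / n), ?_, ?_⟩
  · rw [finprod_pow hfin]
    conv_rhs => rw [← Ideal.finprod_heightOneSpectrum_pow_multiplicity hJ]
    refine finprod_congr fun w => ?_
    rw [← pow_mul]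
    congr 1
    exact Nat.div_mul_cancel (h w)
  · rw [finprod_eq_prod _ hfin]
    rw [← Ideal.zero_eq_bot, Finset.prod_ne_zero_iff]
    intro w _
    exact pow_ne_zero _ w.ne_bot

theorem dvd_of_exp_eq_pow {n : ℕ} {m : ℕ} {s : ℤᵐ⁰} (h : (exp (-(m : ℤ)) : ℤᵐ⁰) = s ^ n)
    (hn : n ≠ 0) : n ∣ m := by
  have hr0 : s ≠ 0 := by
    rintro rfl
    rw [zero_pow hn] at h
    exact exp_ne_zero h
  rw [← exp_log hr0, ← exp_nsmul, exp_inj, nsmul_eq_mul] at h
  have h1 : (n : ℤ) ∣ (m : ℤ) := ⟨-log s, by linear_combination -h⟩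
  exact_mod_cast h1

end

section

variable {A : Type*} [CommRing A] [IsDomain A] [IsPrincipalIdealRing A]
  {B : Type*} [CommRing B] [IsDedekindDomain B] [Algebra A B] [Module.IsTorsionFree A B]
  [Algebra.IsIntegral A B]

theorem exists_gen (v : HeightOneSpectrum A) : ∃ ϖ : A, ϖ ≠ 0 ∧ v.asIdeal = Ideal.span {ϖ} := by
  obtain ⟨ϖ, hϖ⟩ := (IsPrincipalIdealRing.principal v.asIdeal).principal
  refine ⟨ϖ, ?_, hϖ⟩
  rintro rfl
  apply v.ne_bot
  rw [hϖ]
  exact Ideal.span_singleton_eq_bot.2 rfl

theorem exists_twist (n : ℕ) (b : B) (hb : b ≠ 0)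
    (h : ∀ v : HeightOneSpectrum A, ∃ j : ℕ, ∀ w : HeightOneSpectrum B,
      w.asIdeal.LiesOver v.asIdeal →
        n ∣ multiplicity w.asIdeal (Ideal.span {b}) +
          v.asIdeal.ramificationIdx' w.asIdeal * j) :
    ∃ d : A, d ≠ 0 ∧ ∀ w : HeightOneSpectrum B,
      n ∣ multiplicity w.asIdeal (Ideal.span {algebraMap A B d * b}) := by
  classical
  -- the prime of `A` below a prime of `B`
  have hbelow : ∀ w : HeightOneSpectrum B, ∃ v : HeightOneSpectrum A,
      w.asIdeal.LiesOver v.asIdeal := by
    intro w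
    have hne : w.asIdeal.under A ≠ ⊥ := by
      intro h0
      exact w.ne_bot (Ideal.eq_bot_of_comap_eq_bot (R := A) h0)
    have hp : (w.asIdeal.under A).IsPrime := Ideal.IsPrime.under A w.asIdeal
    exact ⟨⟨w.asIdeal.under A, hp, hne⟩, ⟨rfl⟩⟩
  choose below hbelow' using hbelow
  choose gen hgen0 hgen using (fun v : HeightOneSpectrum A => exists_gen v)
  choose j hj using h
  -- the finite set of bad primes
  have hfin : {w : HeightOneSpectrum B | w.asIdeal ∣ Ideal.span {b}}.Finite :=
    Ideal.finite_factors (by simpa using hb)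
  set T : Finset (HeightOneSpectrum A) := hfin.toFinset.image below with hT
  have hTmem : ∀ w : HeightOneSpectrum B, below w ∉ T →
      multiplicity w.asIdeal (Ideal.span {b}) = 0 := by
    intro w hw
    rw [multiplicity_eq_zero]
    intro hd
    apply hw
    rw [hT]
    apply Finset.mem_image_of_mem
    rw [Set.Finite.mem_toFinset]
    exact hd
  have hassoc : ∀ v v' : HeightOneSpectrum A, gen v ∣ gen v' → v = v' := by
    intro v v' hd
    have h1 : v'.asIdeal ≤ v.asIdeal := by
      rw [hgen, hgen]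
      exact Ideal.span_singleton_le_span_singleton.2 hd
    have h2 := v'.isMaximal.eq_of_le v.isPrime.ne_top h1
    exact (HeightOneSpectrum.ext h2).symm
  have hb' : Ideal.span {b} ≠ (0 : Ideal B) := by simpa using hb
  have hd0 : ∀ S : Finset (HeightOneSpectrum A), (∏ v ∈ S, gen v ^ j v) ≠ 0 := fun S =>
    Finset.prod_ne_zero_iff.2 fun v _ => pow_ne_zero _ (hgen0 v)
  refine ⟨∏ v ∈ T, gen v ^ j v, hd0 T, ?_⟩
  intro w
  have hgw : ∀ v : HeightOneSpectrum A, v ≠ below w →
      multiplicity w.asIdeal (Ideal.span {algebraMap A B (gen v)}) = 0 := by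
    intro v hv
    rw [multiplicity_eq_zero]
    intro hd
    apply hv
    have h1 : algebraMap A B (gen v) ∈ w.asIdeal :=
      Ideal.le_of_dvd hd (Ideal.mem_span_singleton_self _)
    have h2 : gen v ∈ (below w).asIdeal := by
      rw [(hbelow' w).over]; exact h1
    rw [hgen, Ideal.mem_span_singleton] at h2
    exact (hassoc _ _ h2).symm
  have hgw' : multiplicity w.asIdeal (Ideal.span {algebraMap A B (gen (below w))}) =
      (below w).asIdeal.ramificationIdx' w.asIdeal := by
    have : w.asIdeal.LiesOver (below w).asIdeal := hbelow' w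
    have h1 := intValuation_liesOver (B := B) (below w) w (gen (below w))
    rw [(below w).intValuation_singleton (hgen0 _) (hgen _)] at h1
    rw [intValuation_eq_exp_neg_multiplicity w (by
      rw [Ne, FaithfulSMul.algebraMap_eq_zero_iff]; exact hgen0 _), ← exp_nsmul, exp_inj] at h1
    simp only [nsmul_eq_mul, mul_neg, mul_one, neg_inj] at h1
    exact_mod_cast h1.symm
  have hmul : ∀ x y : B, x ≠ 0 → y ≠ 0 → multiplicity w.asIdeal (Ideal.span {x * y}) =
      multiplicity w.asIdeal (Ideal.span {x}) + multiplicity w.asIdeal (Ideal.span {y}) := by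
    intro x y hx hy
    rw [← Ideal.span_singleton_mul_span_singleton]
    apply multiplicity_mul (w.prime)
    apply FiniteMultiplicity.of_prime_left w.prime
    exact mul_ne_zero (by simpa using hx) (by simpa using hy)
  have hpow : ∀ (x : B) (m : ℕ), x ≠ 0 → multiplicity w.asIdeal (Ideal.span {x ^ m}) =
      m * multiplicity w.asIdeal (Ideal.span {x}) := by
    intro x m hx
    induction m with
    | zero =>
      rw [pow_zero, zero_mul, multiplicity_eq_zero]
      intro hd
      have := Ideal.le_of_dvd hd (Ideal.mem_span_singleton_self _)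
      exact w.isPrime.ne_top ((Ideal.eq_top_iff_one _).2 this)
    | succ m ih =>
      rw [pow_succ, hmul _ _ (pow_ne_zero _ hx) hx, ih]; ring
  have hprod : ∀ S : Finset (HeightOneSpectrum A),
      multiplicity w.asIdeal (Ideal.span {algebraMap A B (∏ v ∈ S, gen v ^ j v)}) =
      if below w ∈ S then j (below w) * (below w).asIdeal.ramificationIdx' w.asIdeal else 0 := by
    intro S
    induction S using Finset.induction_on with
    | empty =>
      simp only [Finset.prod_empty, map_one, Finset.notMem_empty, if_false]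
      rw [multiplicity_eq_zero]
      intro hd
      have := Ideal.le_of_dvd hd (Ideal.mem_span_singleton_self _)
      exact w.isPrime.ne_top ((Ideal.eq_top_iff_one _).2 this)
    | insert v S hvS ih =>
      have hg : algebraMap A B (gen v) ≠ 0 := by
        rw [Ne, FaithfulSMul.algebraMap_eq_zero_iff]; exact hgen0 _
      rw [Finset.prod_insert hvS, map_mul, map_pow, hmul, ih, hpow _ _ hg]
      · by_cases hv : v = below w
        · subst hv
          rw [hgw', if_neg hvS, if_pos (Finset.mem_insert_self _ _), add_zero]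
        · rw [hgw v hv, mul_zero, zero_add]
          simp only [Finset.mem_insert]
          by_cases h : below w ∈ S
          · rw [if_pos h, if_pos (Or.inr h)]
          · rw [if_neg h, if_neg]
            rintro (h' | h')
            · exact hv h'.symm
            · exact h h'
      · exact pow_ne_zero _ hg
      · rw [Ne, FaithfulSMul.algebraMap_eq_zero_iff]
        exact hd0 S
  rw [hmul _ _ (by
    rw [Ne, FaithfulSMul.algebraMap_eq_zero_iff]
    exact hd0 T) hb, hprod]
  by_cases hw : below w ∈ T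
  · rw [if_pos hw]
    have h2 := hj (below w) w (hbelow' w)
    rwa [add_comm, mul_comm] at h2
  · rw [if_neg hw, zero_add, hTmem w hw]
    exact dvd_zero _

end

section

variable {A K : Type*} [CommRing A] [IsDomain A] [IsPrincipalIdealRing A] [Field K] [Algebra A K]
  [IsFractionRing A K]

variable {B : Type*} [CommRing B] [IsDedekindDomain B] [Algebra A B] [Module.IsTorsionFree A B]
  [Module.Free A B] [Module.Finite A B]

/-- Bezout: if `t ^ d = c k ^ n` with `d` prime to `n` then `t = c ^ x (..) ^ n` -/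
theorem exists_root_of_pow_eq {n d : ℕ} (hnd : n.Coprime d) (t k : K) (ht : t ≠ 0)
    (hk : k ≠ 0) (c : Aˣ) (h : t ^ d = algebraMap A K c * k ^ n) :
    ∃ (c' : Aˣ) (k' : K), k' ≠ 0 ∧ t = algebraMap A K c' * k' ^ n := by
  have hbez := Nat.gcd_eq_gcd_ab n d
  rw [hnd] at hbez
  set y := Nat.gcdA n d
  set x := Nat.gcdB n d
  have hc0 : algebraMap A K c ≠ 0 := by
    rw [Ne, FaithfulSMul.algebraMap_eq_zero_iff]; exact c.ne_zero
  have hcx : ∀ m : ℤ, algebraMap A K ((c ^ m : Aˣ) : A) = (algebraMap A K c) ^ m := by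
    intro m
    have h1 : ∀ u : Aˣ, algebraMap A K u = (Units.map (algebraMap A K).toMonoidHom u : Kˣ) :=
      fun u => rfl
    rw [h1, h1, map_zpow, Units.val_zpow_eq_zpow_val]
  refine ⟨c ^ x, k ^ x * t ^ y, mul_ne_zero (zpow_ne_zero _ hk) (zpow_ne_zero _ ht), ?_⟩
  have h1 : t = (t ^ d) ^ x * (t ^ n) ^ y := by
    rw [← zpow_natCast t d, ← zpow_natCast t n, ← zpow_mul, ← zpow_mul, ← zpow_add₀ ht,
      add_comm, ← hbez]
    simp
  conv_lhs => rw [h1]
  rw [h, mul_zpow, hcx, mul_pow, mul_assoc]
  congr 2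
  · rw [← zpow_natCast k n, ← zpow_mul, mul_comm, zpow_mul, zpow_natCast]
  · rw [← zpow_natCast t n, ← zpow_mul, mul_comm, zpow_mul, zpow_natCast]

variable {L : Type*} [Field L] [Algebra K L] [Algebra A L] [IsScalarTower A K L]
  [Algebra B L] [IsFractionRing B L] [IsScalarTower A B L]

open FractionalIdeal in
/-- The divisor of `δ` is divisible by `n`. -/
theorem glob_ideal {n : ℕ} (hn0 : n ≠ 0) (hn : n.Coprime (Module.finrank A B)) (δ : L)
    (hδ : δ ≠ 0) (hN : ∃ y : K, Algebra.norm K δ = y ^ n)
    (hloc : ∀ v : HeightOneSpectrum A, ∃ j : ℕ, ∀ w : HeightOneSpectrum B,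
      w.asIdeal.LiesOver v.asIdeal → ∃ s : ℤᵐ⁰,
        w.valuation L δ * ((exp (-1 : ℤ)) ^ (v.asIdeal.ramificationIdx' w.asIdeal)) ^ j = s ^ n) :
    ∃ I : FractionalIdeal (nonZeroDivisors B) L, spanSingleton (nonZeroDivisors B) δ = I ^ n := by
  classical
  have hint : Algebra.IsIntegral A B := inferInstance
  have : NeZero n := ⟨hn0⟩
  obtain ⟨x, y, hy, hxy⟩ := IsFractionRing.div_surjective (A := B) δ
  have hy0 : y ≠ 0 := nonZeroDivisors.ne_zero hy
  have hyL : algebraMap B L y ≠ 0 := by
    rw [Ne, FaithfulSMul.algebraMap_eq_zero_iff]; exact hy0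
  have hx0 : x ≠ 0 := by
    rintro rfl
    rw [map_zero, zero_div] at hxy
    exact hδ hxy.symm
  set b := x * y ^ (n - 1) with hbdef
  have hb0 : b ≠ 0 := mul_ne_zero hx0 (pow_ne_zero _ hy0)
  have hb : algebraMap B L b = δ * (algebraMap B L y) ^ n := by
    rw [← hxy, hbdef, map_mul, map_pow]
    have h1 : (algebraMap B L y) ^ n = algebraMap B L y * (algebraMap B L y) ^ (n - 1) := by
      rw [← pow_succ']; congr 1; omega
    rw [h1]
    field_simp
  -- divisibility conditions
  have hpar : ∀ v : HeightOneSpectrum A, ∃ j : ℕ, ∀ w : HeightOneSpectrum B,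
      w.asIdeal.LiesOver v.asIdeal →
        n ∣ multiplicity w.asIdeal (Ideal.span {b}) +
          v.asIdeal.ramificationIdx' w.asIdeal * j := by
    intro v
    obtain ⟨j, hj⟩ := hloc v
    refine ⟨j, fun w hw => ?_⟩
    obtain ⟨s, hs⟩ := hj w hw
    have hval : w.intValuation b = w.valuation L (δ * (algebraMap B L y) ^ n) := by
      rw [← hb]; exact (w.valuation_of_algebraMap (K := L) b).symm
    rw [w.intValuation_eq_exp_neg_multiplicity hb0, map_mul, map_pow] at hval
    refine dvd_of_exp_eq_pow (s := s * w.valuation L (algebraMap B L y)) ?_ hn0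
    rw [mul_pow, ← hs]
    have h2 : (-((multiplicity w.asIdeal (Ideal.span {b}) +
          v.asIdeal.ramificationIdx' w.asIdeal * j : ℕ) : ℤ)) =
        -(multiplicity w.asIdeal (Ideal.span {b}) : ℤ) +
          ((v.asIdeal.ramificationIdx' w.asIdeal * j) • (-1 : ℤ)) := by
      simp only [nsmul_eq_mul]; push_cast; ring
    rw [h2, exp_add, hval, exp_nsmul, pow_mul]
    exact mul_right_comm _ _ _
  obtain ⟨t, ht0, htw⟩ := exists_twist n b hb0 hpar
  have htB : algebraMap A B t ≠ 0 := by
    rw [Ne, FaithfulSMul.algebraMap_eq_zero_iff]; exact ht0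
  have htK : algebraMap A K t ≠ 0 := by
    rw [Ne, FaithfulSMul.algebraMap_eq_zero_iff]; exact ht0
  obtain ⟨I0, hI0, hI0'⟩ := exists_pow_ideal n (Ideal.span {algebraMap A B t * b})
    (by simpa using mul_ne_zero htB hb0) htw
  -- norms
  have hfin : Module.finrank K L = Module.finrank A B := by
    rw [IsFractionRing.finrank_eq A K B L]
  have h3 := congrArg (Ideal.relNorm A) hI0
  rw [map_pow, Ideal.relNorm_singleton, Algebra.intNorm_eq_norm, map_mul] at h3
  obtain ⟨g, hg⟩ := (IsPrincipalIdealRing.principal (Ideal.relNorm A I0)).principal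
  have hg' : Ideal.relNorm A I0 = Ideal.span {g} := hg
  rw [hg', Ideal.span_singleton_pow, Ideal.span_singleton_eq_span_singleton,
    Algebra.norm_algebraMap] at h3
  obtain ⟨c, hc⟩ := h3
  have hnorm : ∀ z : B, Algebra.norm K (algebraMap B L z) = algebraMap A K (Algebra.norm A z) := by
    intro z
    exact Algebra.norm_localization A (nonZeroDivisors A) z
  obtain ⟨y1, hy1⟩ := hN
  have h4 := hnorm b
  rw [hb, map_mul, map_pow, hy1, hnorm y] at h4
  have hfd : FiniteDimensional K L := by
    apply Module.finite_of_finrank_pos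
    rw [hfin]
    exact Module.finrank_pos
  have hy10 : y1 ≠ 0 := by
    rintro rfl
    rw [zero_pow hn0, Algebra.norm_eq_zero_iff] at hy1
    exact hδ hy1
  have hNy0 : algebraMap A K (Algebra.norm A y) ≠ 0 := by
    rw [← hnorm, Ne, Algebra.norm_eq_zero_iff]
    exact hyL
  have h5 := congrArg (algebraMap A K) hc
  rw [map_mul, map_mul, map_pow, map_pow, ← h4, ← mul_pow] at h5
  set k1 := y1 * algebraMap A K (Algebra.norm A y) with hk1
  have hk10 : k1 ≠ 0 := mul_ne_zero hy10 hNy0
  have hg0 : algebraMap A K g ≠ 0 := by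
    intro h0
    rw [h0, zero_pow hn0, zero_mul] at h5
    exact (mul_ne_zero (pow_ne_zero _ htK) (pow_ne_zero _ hk10)) h5.symm
  have h6 : algebraMap A K t ^ (Module.finrank A B) =
      algebraMap A K c * (algebraMap A K g / k1) ^ n := by
    rw [div_pow, mul_div_assoc', eq_div_iff (pow_ne_zero _ hk10), ← h5]
    ring
  obtain ⟨c', k', hk'0, hk'⟩ := exists_root_of_pow_eq (A := A) hn (algebraMap A K t) _ htK
    (div_ne_zero hg0 hk10) c h6
  -- the fractional ideal
  have hk'L : algebraMap K L k' ≠ 0 := by rw [Ne, map_eq_zero]; exact hk'0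
  refine ⟨spanSingleton (nonZeroDivisors B) (algebraMap K L k' * algebraMap B L y)⁻¹ *
    (I0 : FractionalIdeal (nonZeroDivisors B) L), ?_⟩
  have h7 : ((I0 ^ n : Ideal B) : FractionalIdeal (nonZeroDivisors B) L) =
      spanSingleton (nonZeroDivisors B) (algebraMap B L (algebraMap A B t * b)) := by
    rw [hI0, coeIdeal_span_singleton]
  have h8 : algebraMap B L (algebraMap A B t * b) =
      algebraMap B L (algebraMap A B c') * ((algebraMap K L k' * algebraMap B L y) ^ n * δ) := by
    rw [map_mul, hb, ← IsScalarTower.algebraMap_apply A B L, IsScalarTower.algebraMap_apply A K L,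
      hk', map_mul, map_pow, ← IsScalarTower.algebraMap_apply A K L,
      ← IsScalarTower.algebraMap_apply A B L]
    ring
  rw [mul_pow, ← coeIdeal_pow, h7, h8, spanSingleton_pow, spanSingleton_mul_spanSingleton]
  rw [spanSingleton_eq_spanSingleton]
  refine ⟨Units.map (algebraMap A B).toMonoidHom c', ?_⟩
  have h9 : (algebraMap K L k' * algebraMap B L y) ^ n ≠ 0 :=
    pow_ne_zero _ (mul_ne_zero hk'L hyL)
  rw [Units.smul_def, Algebra.smul_def]
  show algebraMap B L (algebraMap A B c') * δ = _
  rw [inv_pow]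
  field_simp

end

end Pool.Agent.H94.TL
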