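import Pool.Agent.H94.TL.Glob

/-!
Consequences of the divisibility of the divisor of `δ` by `n`: classes and units.
-/

namespace Pool.Agent.H94.TL

open Polynomial WithZero IsDedekindDomain HeightOneSpectrum FractionalIdeal

section

variable {B : Type*} [CommRing B] [IsDedekindDomain B] {L : Type*} [Field L] [Algebra B L]
  [IsFractionRing B L]

theorem ne_zero_of_span_eq_pow {n : ℕ} (hn0 : n ≠ 0) {δ : L} (hδ : δ ≠ 0)
    {I : FractionalIdeal (nonZeroDivisors B) L}
    (hI : spanSingleton (nonZeroDivisors B) δ = I ^ n) : I ≠ 0 := by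
  rintro rfl
  rw [zero_pow hn0, spanSingleton_eq_zero_iff] at hI
  exact hδ hI

theorem glob_class {n : ℕ} (hn0 : n ≠ 0) (hcl : ∀ c : ClassGroup B, c ^ n = 1 → c = 1) (δ : L)
    (hδ : δ ≠ 0) (I : FractionalIdeal (nonZeroDivisors B) L)
    (hI : spanSingleton (nonZeroDivisors B) δ = I ^ n) :
    ∃ (u : Bˣ) (z : L), δ = algebraMap B L u * z ^ n := by
  have hI0 := ne_zero_of_span_eq_pow hn0 hδ hI
  have h1 : (ClassGroup.mk (K := L) (Units.mk0 I hI0)) ^ n = 1 := by
    rw [← map_pow, ClassGroup.mk_eq_one_iff]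
    rw [Units.val_pow_eq_pow_val, Units.val_mk0, ← hI]
    exact (isPrincipal_iff _).2 ⟨δ, rfl⟩
  have h2 := hcl _ h1
  obtain ⟨z, hz⟩ := (FractionalIdeal.isPrincipal_iff I).1 (ClassGroup.mk_eq_one_iff.1 h2)
  rw [hz, spanSingleton_pow] at hI
  obtain ⟨u, hu⟩ := spanSingleton_eq_spanSingleton.1 hI
  refine ⟨u⁻¹, z, ?_⟩
  rw [← hu, Units.smul_def, Algebra.smul_def, ← mul_assoc, ← map_mul, Units.inv_mul, map_one,
    one_mul]

/-- two elements whose divisors are `n`-th powers of ideals in the same class -/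
theorem glob_same_class {n : ℕ} (δ γ : L) (I I1 : FractionalIdeal (nonZeroDivisors B) L)
    (hI0 : I ≠ 0) (hI10 : I1 ≠ 0)
    (hI : spanSingleton (nonZeroDivisors B) δ = I ^ n)
    (hI1 : spanSingleton (nonZeroDivisors B) γ = I1 ^ n)
    (hc : ClassGroup.mk (K := L) (Units.mk0 I hI0) = ClassGroup.mk (K := L) (Units.mk0 I1 hI10)) :
    ∃ (u : Bˣ) (z : L), δ = algebraMap B L u * γ * z ^ n := by
  have h1 : ClassGroup.mk (K := L) (Units.mk0 I hI0 * (Units.mk0 I1 hI10)⁻¹) = 1 := by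
    rw [map_mul, map_inv, hc, mul_inv_cancel]
  obtain ⟨z, hz⟩ := (FractionalIdeal.isPrincipal_iff
    ((Units.mk0 I hI0 * (Units.mk0 I1 hI10)⁻¹ : (FractionalIdeal (nonZeroDivisors B) L)ˣ) :
      FractionalIdeal (nonZeroDivisors B) L)).1 (ClassGroup.mk_eq_one_iff.1 h1)
  rw [Units.val_mul, Units.val_mk0, Units.val_inv_eq_inv_val, Units.val_mk0] at hz
  have h2 : I = spanSingleton (nonZeroDivisors B) z * I1 := by
    rw [← hz, mul_assoc, inv_mul_cancel₀ hI10, mul_one]
  have h3 : spanSingleton (nonZeroDivisors B) (γ * z ^ n) =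
      spanSingleton (nonZeroDivisors B) δ := by
    rw [hI, h2, mul_pow, ← hI1, spanSingleton_pow, spanSingleton_mul_spanSingleton, mul_comm]
  obtain ⟨u, hu⟩ := spanSingleton_eq_spanSingleton.1 h3
  refine ⟨u, z, ?_⟩
  rw [← hu, Units.smul_def, Algebra.smul_def, mul_assoc]

end

section

variable {A K : Type*} [CommRing A] [IsDomain A] [Field K] [Algebra A K]
  [IsFractionRing A K]

variable {B : Type*} [CommRing B] [IsDedekindDomain B] [Algebra A B]

variable {L : Type*} [Field L] [Algebra K L] [Algebra A L] [IsScalarTower A K L]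
  [Algebra B L] [IsFractionRing B L] [IsScalarTower A B L]

omit [IsDomain A] [IsFractionRing A K] [Algebra A K] in
theorem root_of_pow_eq {n d : ℕ} (hnd : n.Coprime d) (t k : K) (ht : t ≠ 0) (hk : k ≠ 0)
    (h : t ^ d = k ^ n) : ∃ k' : K, k' ≠ 0 ∧ t = k' ^ n := by
  have hbez := Nat.gcd_eq_gcd_ab n d
  rw [hnd] at hbez
  set y := Nat.gcdA n d
  set x := Nat.gcdB n d
  refine ⟨k ^ x * t ^ y, mul_ne_zero (zpow_ne_zero _ hk) (zpow_ne_zero _ ht), ?_⟩
  have h1 : t = (t ^ d) ^ x * (t ^ n) ^ y := by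
    rw [← zpow_natCast t d, ← zpow_natCast t n, ← zpow_mul, ← zpow_mul, ← zpow_add₀ ht,
      add_comm, ← hbez]
    simp
  conv_lhs => rw [h1]
  rw [h, mul_pow]
  congr 1
  · rw [← zpow_natCast k n, ← zpow_mul, mul_comm, zpow_mul, zpow_natCast]
  · rw [← zpow_natCast t n, ← zpow_mul, mul_comm, zpow_mul, zpow_natCast]

/-- an element `u γ z ^ n` with `u` a unit of the base, all norms being `n`-th powers -/
theorem glob_unit [FiniteDimensional K L] {n : ℕ} (hn : n.Coprime (Module.finrank K L))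
    (δ γ z : L) (hδ : δ ≠ 0) (c : Aˣ)
    (h : δ = algebraMap B L (algebraMap A B c) * γ * z ^ n)
    (hNδ : ∃ y : K, Algebra.norm K δ = y ^ n) (hNγ : ∃ y : K, Algebra.norm K γ = y ^ n) :
    ∃ z' : L, δ = γ * z' ^ n := by
  obtain ⟨y, hy⟩ := hNδ
  obtain ⟨y1, hy1⟩ := hNγ
  have hcK : algebraMap A K c ≠ 0 := by
    rw [Ne, FaithfulSMul.algebraMap_eq_zero_iff]; exact c.ne_zero
  have h1 : algebraMap B L (algebraMap A B c) = algebraMap K L (algebraMap A K c) := by
    rw [← IsScalarTower.algebraMap_apply A B L, ← IsScalarTower.algebraMap_apply A K L]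
  rw [h1] at h
  have h2 := congrArg (Algebra.norm K) h
  rw [map_mul, map_mul, map_pow, Algebra.norm_algebraMap, hy, hy1] at h2
  by_cases hn0 : n = 0
  · subst hn0
    rw [Nat.coprime_zero_left] at hn
    rw [hn, pow_one, pow_zero, pow_zero, pow_zero, mul_one, mul_one] at h2
    refine ⟨1, ?_⟩
    rw [h, ← h2, map_one, pow_zero, pow_zero, one_mul]
  have hy0 : y ≠ 0 := by
    rintro rfl
    rw [zero_pow hn0, Algebra.norm_eq_zero_iff] at hy
    exact hδ hy
  have h3 : y1 * Algebra.norm K z ≠ 0 := by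
    intro h0
    rw [mul_assoc, ← mul_pow, h0, zero_pow hn0, mul_zero] at h2
    exact hy0 ((pow_eq_zero_iff hn0).1 h2)
  -- `c ^ d` is an `n`-th power
  have h4 : (algebraMap A K c) ^ (Module.finrank K L) = (y / (y1 * Algebra.norm K z)) ^ n := by
    rw [div_pow, eq_div_iff (pow_ne_zero _ h3), h2, mul_pow]
    ring
  obtain ⟨k', hk'0, hk'⟩ := root_of_pow_eq hn (algebraMap A K c) _ hcK
    (div_ne_zero hy0 h3) h4
  refine ⟨algebraMap K L k' * z, ?_⟩
  rw [h, hk', map_pow, mul_pow]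
  ring

end

end Pool.Agent.H94.TL
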