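import Pool.Agent.H94.TC.Inert
import Pool.Agent.H94.TL.Glob

/-!
At a prime of the base with only one prime above it, the valuation of an element whose norm is an
`n`-th power is divisible by `n` (the degree being prime to `n`).
-/

namespace Pool.Agent.H94.TL

open Polynomial WithZero IsDedekindDomain HeightOneSpectrum

section

variable {A K : Type*} [CommRing A] [IsDomain A] [IsPrincipalIdealRing A] [Field K] [Algebra A K]
  [IsFractionRing A K]

variable {B : Type*} [CommRing B] [IsDedekindDomain B] [Algebra A B] [Module.IsTorsionFree A B]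
  [Module.Free A B] [Module.Finite A B]

variable {L : Type*} [Field L] [Algebra K L] [Algebra A L] [IsScalarTower A K L]
  [Algebra B L] [IsFractionRing B L] [IsScalarTower A B L]

theorem inert_local {n : ℕ} (hn0 : n ≠ 0) (hn : n.Coprime (Module.finrank A B))
    (v : HeightOneSpectrum A) (ϖ : A)
    (hϖ0 : ϖ ≠ 0) (hv : v.asIdeal = Ideal.span {ϖ})
    (hns : ∀ w w' : HeightOneSpectrum B, algebraMap A B ϖ ∈ w.asIdeal →
      algebraMap A B ϖ ∈ w'.asIdeal → w = w') (δ : L) (hδ : δ ≠ 0)
    (hN : ∃ y : K, Algebra.norm K δ = y ^ n) :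
    ∃ j : ℕ, ∀ (w : HeightOneSpectrum B), w.asIdeal.LiesOver v.asIdeal → ∃ s : ℤᵐ⁰,
      w.valuation L δ * ((exp (-1 : ℤ)) ^ (v.asIdeal.ramificationIdx' w.asIdeal)) ^ j = s ^ n := by
  classical
  refine ⟨0, fun w hw => ?_⟩
  rw [pow_zero, mul_one]
  have hϖ : Prime ϖ := by
    rw [← Ideal.span_singleton_prime hϖ0, ← hv]; exact v.isPrime
  set π := algebraMap A B ϖ with hπ
  have hπ0 : π ≠ 0 := by
    rw [hπ, Ne, FaithfulSMul.algebraMap_eq_zero_iff]; exact hϖ0
  obtain ⟨x, y, hy, hxy⟩ := IsFractionRing.div_surjective (A := B) δ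
  have hy0 : y ≠ 0 := nonZeroDivisors.ne_zero hy
  have hyL : algebraMap B L y ≠ 0 := by
    rw [Ne, FaithfulSMul.algebraMap_eq_zero_iff]; exact hy0
  have hx0 : x ≠ 0 := by
    rintro rfl
    rw [map_zero, zero_div] at hxy
    exact hδ hxy.symm
  set b := x * y ^ (n - 1) with hbdef
  have hb0 : b ≠ 0 := mul_ne_zero hx0 (pow_ne_zero _ hy0)
  have hb : algebraMap B L b = δ * (algebraMap B L y) ^ n := by
    rw [← hxy, hbdef, map_mul, map_pow]
    have h1 : (algebraMap B L y) ^ n = algebraMap B L y * (algebraMap B L y) ^ (n - 1) := by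
      rw [← pow_succ']; congr 1; omega
    rw [h1]
    field_simp
  -- the prime `w` is the only one above `v`
  have hπw : π ∈ w.asIdeal := by
    have h4 : ϖ ∈ v.asIdeal := by rw [hv]; exact Ideal.mem_span_singleton_self _
    rw [hw.over] at h4
    exact h4
  have hspan0 : Ideal.span {π} ≠ ⊥ := by rw [Ne, Ideal.span_singleton_eq_bot]; exact hπ0
  set e := multiplicity w.asIdeal (Ideal.span {π}) with he
  have hwπ : w.asIdeal ^ e = Ideal.span {π} := by
    have h1 := Ideal.finprod_heightOneSpectrum_pow_multiplicity hspan0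
    rw [finprod_eq_single _ w] at h1
    · exact h1
    · intro w' hw'
      rw [multiplicity_eq_zero.2, pow_zero]
      intro hd
      exact hw' (hns w' w (Ideal.le_of_dvd hd (Ideal.mem_span_singleton_self _)) hπw)
  have hvalπ : w.intValuation π = exp (-(e : ℤ)) := by
    rw [intValuation_eq_exp_neg_multiplicity w hπ0]
  set m := multiplicity w.asIdeal (Ideal.span {b}) with hm'
  have hvalb : w.intValuation b = exp (-(m : ℤ)) := by
    rw [intValuation_eq_exp_neg_multiplicity w hb0]
  have he0 : e ≠ 0 := by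
    intro h0
    rw [h0, pow_zero, Ideal.one_eq_top] at hwπ
    apply w.isPrime.ne_top
    rw [eq_comm, Ideal.span_singleton_eq_top] at hwπ
    exact Ideal.eq_top_of_isUnit_mem _ hπw hwπ
  -- `b ^ e = π ^ m u`
  obtain ⟨u, hu⟩ : π ^ m ∣ b ^ e := by
    rw [← Ideal.span_singleton_le_span_singleton, ← Ideal.span_singleton_pow,
      ← Ideal.span_singleton_pow, ← hwπ, ← pow_mul, mul_comm e m, pow_mul]
    refine Ideal.pow_right_mono ?_ e
    exact Ideal.le_of_dvd (pow_multiplicity_dvd _ _)
  have hvalu : w.intValuation u = 1 := by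
    have h1 := congrArg w.intValuation hu
    rw [map_mul, map_pow, map_pow, hvalb, hvalπ, ← exp_nsmul, ← exp_nsmul] at h1
    have h2 : e • (-(m : ℤ)) = m • (-(e : ℤ)) := by
      simp only [nsmul_eq_mul]; ring
    rw [h2] at h1
    exact (mul_eq_left₀ exp_ne_zero).1 h1.symm
  have hcop : IsCoprime (Ideal.span {u}) (Ideal.span {π}) := by
    rw [← hwπ]
    apply IsCoprime.pow_right
    rw [Ideal.isCoprime_iff_sup_eq]
    have h1 : u ∉ w.asIdeal := intValuation_eq_one_iff.1 hvalu
    have h2 : w.asIdeal < Ideal.span {u} ⊔ w.asIdeal := by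
      refine lt_of_le_of_ne le_sup_right fun h3 => h1 ?_
      rw [h3]
      exact (le_sup_left : Ideal.span {u} ≤ _) (Ideal.mem_span_singleton_self _)
    exact w.isMaximal.out.2 _ h2
  -- the norm
  have hfin : Module.finrank K L = Module.finrank A B := by
    rw [IsFractionRing.finrank_eq A K B L]
  have hnorm : ∀ z : B, Algebra.norm K (algebraMap B L z) =
      algebraMap A K (Algebra.norm A z) := by
    intro z
    exact Algebra.norm_localization A (nonZeroDivisors A) z
  obtain ⟨y1, hy1⟩ := hN
  have hNb : Algebra.norm K (algebraMap B L b) =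
      (y1 * Algebra.norm K (algebraMap B L y)) ^ n := by
    rw [hb, map_mul, map_pow, hy1, mul_pow]
  have hNbe : Algebra.norm K (algebraMap B L b) ^ e =
      algebraMap A K (ϖ ^ (m * Module.finrank A B) * Algebra.norm A u) := by
    have h10 : algebraMap B L (π ^ m) = algebraMap K L ((algebraMap A K ϖ) ^ m) := by
      rw [map_pow, hπ, ← IsScalarTower.algebraMap_apply A B L, map_pow,
        ← IsScalarTower.algebraMap_apply A K L]
    rw [← map_pow, ← map_pow, hu, map_mul (algebraMap B L), h10,
      map_mul (Algebra.norm K), hnorm u, Algebra.norm_algebraMap, hfin, ← pow_mul, map_mul, map_pow]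
  have hs : algebraMap A K (ϖ ^ (m * Module.finrank A B) * Algebra.norm A u) =
      ((y1 * Algebra.norm K (algebraMap B L y)) ^ e) ^ n := by
    rw [← hNbe, hNb, ← pow_mul, ← pow_mul, mul_comm n e]
  have h7 := congrArg (v.valuation K) hs
  rw [valuation_of_algebraMap, map_mul, map_pow,
    v.intValuation_singleton hϖ0 hv, map_pow (v.valuation K)] at h7
  have h8 : v.intValuation (Algebra.norm A u) = 1 := by
    rw [intValuation_eq_one_iff, hv, Ideal.mem_span_singleton]
    exact H94.TC.not_dvd_norm ϖ hϖ u hcop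
  rw [h8, mul_one, ← exp_nsmul] at h7
  have h11 : ((m * Module.finrank A B) • (-1 : ℤ)) = -((m * Module.finrank A B : ℕ) : ℤ) := by
    simp only [nsmul_eq_mul]; push_cast; ring
  rw [h11] at h7
  have h9 : n ∣ m * Module.finrank A B := dvd_of_exp_eq_pow h7 hn0
  obtain ⟨k, hk⟩ := hn.dvd_of_dvd_mul_right h9
  have hval : w.valuation L δ * (w.valuation L (algebraMap B L y)) ^ n =
      exp (-(m : ℤ)) := by
    rw [← hvalb]
    have h12 : w.valuation L (algebraMap B L b) = w.intValuation b :=
      w.valuation_of_algebraMap (K := L) b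
    rw [hb, map_mul, map_pow] at h12
    exact h12
  have hy1 : w.valuation L (algebraMap B L y) ≠ 0 := by
    rw [Valuation.ne_zero_iff]; exact hyL
  refine ⟨exp (-(k : ℤ)) / w.valuation L (algebraMap B L y), ?_⟩
  rw [div_pow, eq_div_iff (pow_ne_zero _ hy1), hval, ← exp_nsmul, exp_inj, hk]
  simp only [nsmul_eq_mul]; push_cast; ring

end

end Pool.Agent.H94.TL
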