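import Pool.Agent.H94.TC.NormRes

/-!
The norm of a value of the `x - θ` map on `c z ^ n = g(x)` is an `n`-th power.
-/

namespace Pool.Agent.H94.TL

open Polynomial

/-- `P` divides `c Q ^ k - g`, `k` divides `n` and `n` divides `a d + 1`: then the norm of
`(-c ^ a) ^ r P(θ)` is a `k`-th power. -/
theorem norm_descent {F : Type*} [Field F] (c : F) (g : F[X]) (hg : g.Monic) (k a : ℕ)
    (hk : k ∣ a * g.natDegree + 1) (P Q : F[X]) (hP : P.Monic)
    (hPQ : P ∣ C c * Q ^ k - g) :
    ∃ y : F, Algebra.norm F (AdjoinRoot.mk g (C (-c ^ a)) ^ P.natDegree * AdjoinRoot.mk g P) =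
      y ^ k := by
  have hfree : Module.Free F (AdjoinRoot g) := hg.free_adjoinRoot
  have hfin : Module.Finite F (AdjoinRoot g) := hg.finite_adjoinRoot
  have hrank : Module.finrank F (AdjoinRoot g) = g.natDegree :=
    finrank_quotient_span_eq_natDegree' hg
  have hfreeP : Module.Free F (AdjoinRoot P) := hP.free_adjoinRoot
  have hfinP : Module.Finite F (AdjoinRoot P) := hP.finite_adjoinRoot
  have hrankP : Module.finrank F (AdjoinRoot P) = P.natDegree :=
    finrank_quotient_span_eq_natDegree' hP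
  obtain ⟨m, hm⟩ := hk
  have h1 : AdjoinRoot.mk P g = algebraMap F (AdjoinRoot P) c * (AdjoinRoot.mk P Q) ^ k := by
    have h0 : algebraMap F (AdjoinRoot P) c = AdjoinRoot.mk P (C c) := rfl
    rw [h0, ← map_pow, ← map_mul, eq_comm, AdjoinRoot.mk_eq_mk]
    exact hPQ
  have h2 := H94.TC.norm_eq_resultant P hP g
  rw [h1, map_mul, Algebra.norm_algebraMap, hrankP, map_pow] at h2
  have h4 : Algebra.norm F (AdjoinRoot.mk g (C (-c ^ a))) = (-c ^ a) ^ g.natDegree := by
    have : AdjoinRoot.mk g (C (-c ^ a)) = algebraMap F (AdjoinRoot g) (-c ^ a) := rfl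
    rw [this, Algebra.norm_algebraMap, hrank]
  have h5 : (resultant g P g.natDegree P.natDegree) =
      (-1) ^ (g.natDegree * P.natDegree) * (resultant P g P.natDegree g.natDegree) :=
    resultant_comm g P _ _
  refine ⟨(c ^ m) ^ P.natDegree * Algebra.norm F (AdjoinRoot.mk P Q), ?_⟩
  rw [map_mul, map_pow, h4, H94.TC.norm_eq_resultant g hg, h5, ← h2, neg_pow, mul_pow (_ ^ _),
    ← pow_mul (-1 : F)]
  have h7 : ((-1 : F)) ^ (g.natDegree * P.natDegree) * (-1) ^ (g.natDegree * P.natDegree) = 1 := by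
    rw [← mul_pow]; simp
  have h8 : ((c ^ a) ^ g.natDegree) ^ P.natDegree * c ^ P.natDegree =
      ((c ^ m) ^ P.natDegree) ^ k := by
    rw [← mul_pow, ← pow_mul c a, ← pow_succ, hm, ← pow_mul, ← pow_mul, ← pow_mul]
    congr 1; ring
  rw [mul_pow, ← h8]
  linear_combination (((c ^ a) ^ g.natDegree) ^ P.natDegree * c ^ P.natDegree *
    Algebra.norm F (AdjoinRoot.mk P Q) ^ k) * h7

end Pool.Agent.H94.TL
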